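import Pool.Agent.MP_411355_ag.Defs

-- part MP_411355_ag.LocFree
section

universe u

namespace Pool.Agent.MP_411355_ag

variable {T : Type u} [CommRing T] {M : Type u} [AddCommGroup M] [Module T M]

/-- an ideal whose radical contains a spanning set is everything -/
theorem ideal_eq_top_of_pow {s : Set T} (hs : Ideal.span s = ⊤) (J : Ideal T)
    (h : ∀ f ∈ s, ∃ n : ℕ, f ^ n ∈ J) : J = ⊤ := by
  have : Ideal.span s ≤ J.radical := Ideal.span_le.2 fun f hf => h f hf
  rw [hs, top_le_iff] at this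
  exact Ideal.radical_eq_top.1 this

theorem IsLocallyFreeOfRank.of_equiv {n : ℕ} (e : M ≃ₗ[T] (Fin n → T)) :
    IsLocallyFreeOfRank T M n := by
  refine ⟨{1}, by simp, fun f _ => ⟨?_⟩⟩
  let b : Module.Basis (Fin n) T M := Module.Basis.ofEquivFun e
  exact (b.ofIsLocalizedModule (Localization.Away f) (Submonoid.powers f)
    (LocalizedModule.mkLinearMap (Submonoid.powers f) M)).equivFun

theorem IsLocallyFreeOfRank.eq_zero (h : IsLocallyFreeOfRank T M 0) (m : M) : m = 0 := by
  obtain ⟨s, hs, h⟩ := h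
  have : Ideal.torsionOf T M m = ⊤ := by
    refine ideal_eq_top_of_pow hs _ fun f hf => ?_
    obtain ⟨e⟩ := h f hf
    have h0 : LocalizedModule.mkLinearMap (Submonoid.powers f) M m = 0 := by
      apply e.injective
      exact Subsingleton.elim _ _
    obtain ⟨⟨_, n, rfl⟩, hn⟩ := (IsLocalizedModule.eq_zero_iff (Submonoid.powers f) _).1 h0
    exact ⟨n, (Ideal.mem_torsionOf_iff _ _).2 hn⟩
  have h1 : (1 : T) ∈ Ideal.torsionOf T M m := by rw [this]; trivial
  simpa [Ideal.mem_torsionOf_iff] using h1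

theorem IsLocallyFreeOfRank.faithful (h : IsLocallyFreeOfRank T M 1) (c : T)
    (hc : ∀ m : M, c • m = 0) : c = 0 := by
  obtain ⟨s, hs, h⟩ := h
  have : Ideal.torsionOf T T c = ⊤ := by
    refine ideal_eq_top_of_pow hs _ fun f hf => ?_
    obtain ⟨e⟩ := h f hf
    have h0 : ∀ x : LocalizedModule (Submonoid.powers f) M, c • x = 0 := by
      intro x
      induction x using LocalizedModule.induction_on with
      | _ m t => rw [LocalizedModule.smul'_mk, hc, LocalizedModule.zero_mk]
    have h1 : algebraMap T (Localization.Away f) c = 0 := by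
      have h2 := h0 (e.symm fun _ => 1)
      rw [← IsScalarTower.algebraMap_smul (Localization.Away f), ← map_smul,
        LinearEquiv.map_eq_zero_iff] at h2
      simpa using congrFun h2 0
    obtain ⟨⟨_, n, rfl⟩, hn⟩ := (IsLocalization.map_eq_zero_iff (Submonoid.powers f) _ _).1 h1
    exact ⟨n, by simpa [Ideal.mem_torsionOf_iff] using hn⟩
  have h1 : (1 : T) ∈ Ideal.torsionOf T T c := by rw [this]; trivial
  simpa [Ideal.mem_torsionOf_iff] using h1

theorem IsLocallyFreeOfRank.two_gen (h : IsLocallyFreeOfRank T M 1) (α β : M)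
    (hg : ∀ m : M, ∃ a b : T, m = a • α + b • β) :
    ∃ e s t : T, e • α = s • β ∧ (1 - e) • β = t • α := by
  obtain ⟨S, hS, h⟩ := h
  let J₁ : Ideal T := Submodule.comap (LinearMap.toSpanSingleton T M α) (Submodule.span T {β})
  let J₂ : Ideal T := Submodule.comap (LinearMap.toSpanSingleton T M β) (Submodule.span T {α})
  have : J₁ ⊔ J₂ = ⊤ := by
    refine ideal_eq_top_of_pow hS _ fun f hf => ?_
    obtain ⟨e⟩ := h f hf
    set L := Localization.Away f
    let ι := LocalizedModule.mkLinearMap (Submonoid.powers f) M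
    let θ : M →ₗ[T] L := (LinearMap.proj 0 : (Fin 1 → L) →ₗ[T] L) ∘ₗ
      (e.restrictScalars T).toLinearMap ∘ₗ ι
    have hθ : ∀ m, θ m = 0 → ∃ n : ℕ, f ^ n • m = 0 := by
      intro m hm
      have h0 : ι m = 0 := by
        apply e.injective
        rw [map_zero]
        funext i
        rw [Subsingleton.elim i 0]
        exact hm
      obtain ⟨⟨_, n, rfl⟩, hn⟩ := (IsLocalizedModule.eq_zero_iff (Submonoid.powers f) _).1 h0
      exact ⟨n, hn⟩
    -- `θ m = f ^ n` for some `m`
    obtain ⟨m, n, hm⟩ : ∃ (m : M) (n : ℕ), θ m = algebraMap T L (f ^ n) := by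
      obtain ⟨⟨m, ⟨_, n, rfl⟩⟩, hx⟩ := IsLocalizedModule.surj (Submonoid.powers f) ι
        (e.symm fun _ => 1)
      refine ⟨m, n, ?_⟩
      have : ι m = (f ^ n) • e.symm fun _ => 1 := hx.symm
      simp only [θ, LinearMap.comp_apply, this, map_smul]
      simp [Algebra.smul_def]
    obtain ⟨a, b, rfl⟩ := hg m
    obtain ⟨⟨a', ⟨_, p, rfl⟩⟩, ha⟩ := IsLocalization.surj (Submonoid.powers f) (θ α)
    obtain ⟨⟨b', ⟨_, q, rfl⟩⟩, hb⟩ := IsLocalization.surj (Submonoid.powers f) (θ β)
    simp only at ha hb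
    -- cross relation
    have hx : θ ((b' * f ^ p) • α - (a' * f ^ q) • β) = 0 := by
      rw [map_sub, map_smul, map_smul, Algebra.smul_def, Algebra.smul_def, map_mul, map_mul,
        ← ha, ← hb]
      ring
    obtain ⟨N, hN⟩ := hθ _ hx
    rw [smul_sub, sub_eq_zero, smul_smul, smul_smul] at hN
    have h1 : f ^ N * (b' * f ^ p) ∈ J₁ := by
      show (f ^ N * (b' * f ^ p)) • α ∈ Submodule.span T {β}
      rw [hN]
      exact Submodule.smul_mem _ _ (Submodule.mem_span_singleton_self _)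
    have h2 : f ^ N * (a' * f ^ q) ∈ J₂ := by
      show (f ^ N * (a' * f ^ q)) • β ∈ Submodule.span T {α}
      rw [← hN]
      exact Submodule.smul_mem _ _ (Submodule.mem_span_singleton_self _)
    have h3 : algebraMap T L (a * (a' * f ^ q) + b * (b' * f ^ p) - f ^ n * f ^ p * f ^ q) = 0 := by
      rw [map_add, map_smul, map_smul, Algebra.smul_def, Algebra.smul_def] at hm
      simp only [map_sub, map_add, map_mul, ← ha, ← hb, ← hm]
      ring
    obtain ⟨⟨_, r, rfl⟩, hr⟩ := (IsLocalization.map_eq_zero_iff (Submonoid.powers f) _ _).1 h3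
    refine ⟨N + r + n + p + q, ?_⟩
    have : f ^ (N + r + n + p + q) =
        (f ^ r * b) * (f ^ N * (b' * f ^ p)) + (f ^ r * a) * (f ^ N * (a' * f ^ q)) := by
      simp only at hr
      simp only [pow_add]
      linear_combination (-f ^ N) * hr
    rw [this]
    exact Submodule.add_mem_sup (J₁.mul_mem_left _ h1) (J₂.mul_mem_left _ h2)
  have h1 : (1 : T) ∈ J₁ ⊔ J₂ := by rw [this]; trivial
  obtain ⟨e, he, e', he', hsum⟩ := Submodule.mem_sup.1 h1
  obtain ⟨s, hs⟩ := Submodule.mem_span_singleton.1 he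
  obtain ⟨t, ht⟩ := Submodule.mem_span_singleton.1 he'
  refine ⟨e, s, t, hs.symm, ?_⟩
  rw [← hsum, add_sub_cancel_left]
  exact ht.symm

end Pool.Agent.MP_411355_ag

end

-- part MP_411355_ag.Ideals
section

open MvPolynomial

universe u

namespace Pool.Agent.MP_411355_ag

/-- degrees of the variables -/
abbrev wt : Fin 3 → ℤ := ![3, 4, 5]

/-- the Hilbert function -/
abbrev hf : ℤ → ℕ := fun a => if a ∈ ({0, 3, 4, 5, 6, 8, 9, 10, 12, 13} : Finset ℤ) then 1 else 0

/-- the support of the Hilbert function -/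
abbrev HS (a : ℤ) : Prop := a ∈ ({0, 3, 4, 5, 6, 8, 9, 10, 12, 13} : Finset ℤ)

theorem HS_iff (a : ℤ) : HS a ↔ a = 0 ∨ a = 3 ∨ a = 4 ∨ a = 5 ∨ a = 6 ∨ a = 8 ∨ a = 9 ∨ a = 10 ∨
    a = 12 ∨ a = 13 := by
  simp [HS]

theorem weight_eq (u : Fin 3 →₀ ℕ) :
    Finsupp.weight wt u = 3 * (u 0 : ℤ) + 4 * (u 1 : ℤ) + 5 * (u 2 : ℤ) := by
  rw [Finsupp.weight_apply, Finsupp.sum_fintype _ _ (by simp), Fin.sum_univ_three]
  simp
  ring

/-- exponent vector -/
noncomputable def ex (i j k : ℕ) : Fin 3 →₀ ℕ := Finsupp.equivFunOnFinite.symm ![i, j, k]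

@[simp] theorem ex_zero (i j k : ℕ) : ex i j k 0 = i := rfl
@[simp] theorem ex_one (i j k : ℕ) : ex i j k 1 = j := rfl
@[simp] theorem ex_two (i j k : ℕ) : ex i j k 2 = k := rfl

theorem ext3 {u v : Fin 3 →₀ ℕ} (h0 : u 0 = v 0) (h1 : u 1 = v 1) (h2 : u 2 = v 2) : u = v := by
  ext i
  fin_cases i
  exacts [h0, h1, h2]

/-- standard monomials of the first monomial ideal -/
def St1 (u : Fin 3 →₀ ℕ) : Prop :=
  (u 0 ≤ 2 ∧ u 1 = 0 ∧ u 2 = 0) ∨ (u 0 = 0 ∧ u 1 ≤ 3 ∧ u 2 = 0) ∨ (u 0 = 0 ∧ u 1 ≤ 2 ∧ u 2 = 1) ∨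
    (u 0 = 0 ∧ u 1 = 0 ∧ u 2 = 2)

/-- standard monomials of the second monomial ideal -/
def St2 (u : Fin 3 →₀ ℕ) : Prop :=
  (u 0 = 0 ∧ u 1 = 1 ∧ u 2 = 0) ∨ (u 0 ≤ 4 ∧ u 1 = 0 ∧ u 2 = 0) ∨ (u 0 ≤ 1 ∧ u 1 = 0 ∧ u 2 ≤ 2)

/-- what we need of a set of standard monomials -/
structure Good (St : (Fin 3 →₀ ℕ) → Prop) : Prop where
  down : ∀ a b, St (a + b) → St b
  uniq : ∀ u v, St u → St v → Finsupp.weight wt u = Finsupp.weight wt v → u = v
  mem : ∀ u, St u → HS (Finsupp.weight wt u)
  exi : ∀ a, HS a → ∃ u, St u ∧ Finsupp.weight wt u = a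

theorem good1 : Good St1 where
  down a b h := by
    simp only [St1, Finsupp.add_apply] at h ⊢
    omega
  uniq u v hu hv h := by
    simp only [St1, weight_eq] at hu hv h
    apply ext3 <;> omega
  mem u hu := by
    simp only [St1] at hu
    rw [HS_iff, weight_eq]
    omega
  exi a ha := by
    rw [HS_iff] at ha
    simp only [St1, weight_eq]
    rcases ha with rfl | rfl | rfl | rfl | rfl | rfl | rfl | rfl | rfl | rfl
    exacts [⟨ex 0 0 0, by simp⟩, ⟨ex 1 0 0, by simp⟩, ⟨ex 0 1 0, by simp⟩, ⟨ex 0 0 1, by simp⟩,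
      ⟨ex 2 0 0, by simp⟩, ⟨ex 0 2 0, by simp⟩, ⟨ex 0 1 1, by simp⟩, ⟨ex 0 0 2, by simp⟩,
      ⟨ex 0 3 0, by simp⟩, ⟨ex 0 2 1, by simp⟩]

theorem good2 : Good St2 where
  down a b h := by
    simp only [St2, Finsupp.add_apply] at h ⊢
    omega
  uniq u v hu hv h := by
    simp only [St2, weight_eq] at hu hv h
    apply ext3 <;> omega
  mem u hu := by
    simp only [St2] at hu
    rw [HS_iff, weight_eq]
    rcases hu with ⟨h0, h1, h2⟩ | ⟨h0, h1, h2⟩ | ⟨h0, h1, h2⟩
    · omega
    · omega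
    · rw [h1]
      interval_cases u 0 <;> interval_cases u 2 <;> simp
  exi a ha := by
    rw [HS_iff] at ha
    simp only [St2, weight_eq]
    rcases ha with rfl | rfl | rfl | rfl | rfl | rfl | rfl | rfl | rfl | rfl
    exacts [⟨ex 0 0 0, by simp⟩, ⟨ex 1 0 0, by simp⟩, ⟨ex 0 1 0, by simp⟩, ⟨ex 0 0 1, by simp⟩,
      ⟨ex 2 0 0, by simp⟩, ⟨ex 1 0 1, by simp⟩, ⟨ex 3 0 0, by simp⟩, ⟨ex 0 0 2, by simp⟩,
      ⟨ex 4 0 0, by simp⟩, ⟨ex 1 0 2, by simp⟩]

variable {T : Type u} [CommRing T]

/-- polynomials whose standard coefficients are killed by `ε` -/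
def killIdeal (St : (Fin 3 →₀ ℕ) → Prop) (hS : Good St) (ε : T) : Ideal (MvPolynomial (Fin 3) T) where
  carrier := {f | ∀ u, St u → ε * coeff u f = 0}
  zero_mem' := by intro u _; simp
  add_mem' := by
    intro f g hf hg u hu
    rw [coeff_add, mul_add, hf u hu, hg u hu, add_zero]
  smul_mem' := by
    intro g f hf u hu
    classical
    rw [smul_eq_mul, coeff_mul, Finset.mul_sum]
    refine Finset.sum_eq_zero fun p hp => ?_
    have := hf p.2 (hS.down p.1 p.2 (by rw [Finset.HasAntidiagonal.mem_antidiagonal.1 hp]; exact hu))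
    linear_combination coeff p.1 g * this

/-- the ideal attached to an idempotent -/
noncomputable def Ie (e : T) : Ideal (MvPolynomial (Fin 3) T) :=
  killIdeal St1 good1 e ⊓ killIdeal St2 good2 (1 - e)

theorem mem_Ie {e : T} {f : MvPolynomial (Fin 3) T} :
    f ∈ Ie e ↔ (∀ u, St1 u → e * coeff u f = 0) ∧ ∀ u, St2 u → (1 - e) * coeff u f = 0 := Iff.rfl

theorem monomial_mem_Ie {e c : T} {u : Fin 3 →₀ ℕ} (h1 : St1 u → e * c = 0)
    (h2 : St2 u → (1 - e) * c = 0) : monomial u c ∈ Ie e := by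
  classical
  refine mem_Ie.2 ⟨fun v hv => ?_, fun v hv => ?_⟩
  · rw [coeff_monomial]
    split_ifs with h
    · exact h1 (h ▸ hv)
    · simp
  · rw [coeff_monomial]
    split_ifs with h
    · exact h2 (h ▸ hv)
    · simp

theorem isHilbertPoint_Ie {e : T} (he : e * e = e) : IsHilbertPoint wt hf T (Ie e) := by
  classical
  refine ⟨fun f hf a => ?_, fun a => ?_⟩
  · rw [mem_Ie] at hf ⊢
    refine ⟨fun u hu => ?_, fun u hu => ?_⟩
    · rw [coeff_weightedHomogeneousComponent]
      split_ifs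
      · exact hf.1 u hu
      · simp
    · rw [coeff_weightedHomogeneousComponent]
      split_ifs
      · exact hf.2 u hu
      · simp
  · by_cases ha : HS a
    · have h1 : hf a = 1 := if_pos ha
      rw [h1]
      obtain ⟨u1, hu1, hw1⟩ := good1.exi a ha
      obtain ⟨u2, hu2, hw2⟩ := good2.exi a ha
      let ℓ : weightedHomogeneousSubmodule T wt a →ₗ[T] T :=
        (e • lcoeff T u1 + (1 - e) • lcoeff T u2) ∘ₗ (weightedHomogeneousSubmodule T wt a).subtype
      have hℓ : ∀ f, ℓ f = e * coeff u1 f.1 + (1 - e) * coeff u2 f.1 := fun f => by simp [ℓ]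
      have hsurj : Function.Surjective ℓ := by
        intro c
        refine ⟨⟨monomial u1 (e * c) + monomial u2 ((1 - e) * c), ?_⟩, ?_⟩
        · exact Submodule.add_mem _ (isWeightedHomogeneous_monomial _ _ _ hw1)
            (isWeightedHomogeneous_monomial _ _ _ hw2)
        · rw [hℓ]
          simp only [coeff_add, coeff_monomial, if_true]
          by_cases h12 : u1 = u2
          · simp only [h12, if_true]
            ring
          · rw [if_neg h12, if_neg (Ne.symm h12)]
            linear_combination (2 * c) * he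
      have hker : ((Ie e).restrictScalars T).submoduleOf (weightedHomogeneousSubmodule T wt a) =
          LinearMap.ker ℓ := by
        ext f
        rw [LinearMap.mem_ker, hℓ]
        change f.1 ∈ Ie e ↔ _
        rw [mem_Ie]
        constructor
        · rintro ⟨h1, h2⟩
          rw [h1 u1 hu1, h2 u2 hu2, add_zero]
        · intro h
          refine ⟨fun u hu => ?_, fun u hu => ?_⟩
          · by_cases hw : Finsupp.weight wt u = a
            · rw [good1.uniq u u1 hu hu1 (hw.trans hw1.symm)]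
              linear_combination e * h + (coeff u2 f.1 - coeff u1 f.1) * he
            · rw [IsWeightedHomogeneous.coeff_eq_zero f.2 u hw, mul_zero]
          · by_cases hw : Finsupp.weight wt u = a
            · rw [good2.uniq u u2 hu hu2 (hw.trans hw2.symm)]
              linear_combination (1 - e) * h + (coeff u1 f.1 - coeff u2 f.1) * he
            · rw [IsWeightedHomogeneous.coeff_eq_zero f.2 u hw, mul_zero]
      exact IsLocallyFreeOfRank.of_equiv ((Submodule.quotEquivOfEq _ _ hker).trans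
        ((ℓ.quotKerEquivOfSurjective hsurj).trans (LinearEquiv.funUnique (Fin 1) T T).symm))
    · have h0 : hf a = 0 := if_neg ha
      rw [h0]
      have htop : ((Ie e).restrictScalars T).submoduleOf (weightedHomogeneousSubmodule T wt a) =
          ⊤ := by
        rw [eq_top_iff]
        intro f _
        change f.1 ∈ Ie e
        refine mem_Ie.2 ⟨fun u hu => ?_, fun u hu => ?_⟩
        · rw [IsWeightedHomogeneous.coeff_eq_zero f.2 u (fun h => ha (h ▸ good1.mem u hu)),
            mul_zero]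
        · rw [IsWeightedHomogeneous.coeff_eq_zero f.2 u (fun h => ha (h ▸ good2.mem u hu)),
            mul_zero]
      have : Subsingleton (weightedHomogeneousSubmodule T wt a ⧸
          ((Ie e).restrictScalars T).submoduleOf (weightedHomogeneousSubmodule T wt a)) :=
        Submodule.Quotient.subsingleton_iff.2 htop
      exact IsLocallyFreeOfRank.of_equiv (LinearEquiv.ofSubsingleton _ _)

theorem Ie_injective {e e' : T} (he : e * e = e) (he' : e' * e' = e') (h : Ie e = Ie e') :
    e = e' := by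
  have key : ∀ {e e' : T}, e * e = e → Ie e = Ie e' → (1 - e') * e = 0 := by
    intro e e' he h
    have h1 : monomial (ex 1 0 1) e ∈ Ie e :=
      monomial_mem_Ie (fun h => by simp [St1] at h) (fun _ => by linear_combination -he)
    rw [h] at h1
    simpa using (mem_Ie.1 h1).2 (ex 1 0 1) (by simp [St2])
  linear_combination key he h - key he' h.symm

theorem map_Ie {T' : Type u} [CommRing T'] (φ : T →+* T') {e : T} (he : e * e = e) :
    Ideal.map (MvPolynomial.map φ) (Ie e) = Ie (φ e) := by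
  classical
  apply le_antisymm
  · rw [Ideal.map_le_iff_le_comap]
    intro f hf
    rw [Ideal.mem_comap, mem_Ie]
    rw [mem_Ie] at hf
    refine ⟨fun u hu => ?_, fun u hu => ?_⟩
    · rw [coeff_map, ← map_mul, hf.1 u hu, map_zero]
    · rw [coeff_map, ← map_one φ, ← map_sub, ← map_mul, hf.2 u hu, map_zero]
  · intro f hf
    rw [mem_Ie] at hf
    rw [f.as_sum]
    refine Ideal.sum_mem _ fun u _ => ?_
    set ε : T := (if St1 u then 1 - e else 1) * (if St2 u then e else 1) with hε
    have h1 : monomial u ε ∈ Ie e := by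
      refine monomial_mem_Ie (fun h => ?_) (fun h => ?_)
      · rw [hε, if_pos h]
        linear_combination (-(if St2 u then e else 1)) * he
      · rw [hε, if_pos h]
        linear_combination (-(if St1 u then 1 - e else 1)) * he
    have h2 : coeff u f = coeff u f * φ ε := by
      rw [hε]
      split_ifs with ha hb hb
      · have := hf.1 u ha
        have := hf.2 u hb
        simp only [map_mul, map_sub, map_one]
        linear_combination (exp := 1) (φ e) * hf.1 u ha + hf.2 u hb
      · simp only [map_mul, map_sub, map_one]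
        linear_combination hf.1 u ha
      · simp only [map_mul, map_one]
        linear_combination hf.2 u hb
      · simp
    have h3 : monomial u (coeff u f) = C (coeff u f) * MvPolynomial.map φ (monomial u ε) := by
      rw [map_monomial, C_mul_monomial, ← h2]
    rw [h3]
    exact Ideal.mul_mem_left _ _ (Ideal.mem_map_of_mem _ h1)

end Pool.Agent.MP_411355_ag

end

-- part MP_411355_ag.Classify
section

open MvPolynomial

universe u

namespace Pool.Agent.MP_411355_ag

variable {T : Type u} [CommRing T] {I : Ideal (MvPolynomial (Fin 3) T)}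

theorem monomial_eq3 (u : Fin 3 →₀ ℕ) (c : T) :
    monomial u c = C c * (X 0 ^ u 0 * X 1 ^ u 1 * X 2 ^ u 2) := by
  rw [monomial_eq, Finsupp.prod_fintype _ _ (by simp), Fin.prod_univ_three]

theorem homog_as_sum {a : ℤ} {f : MvPolynomial (Fin 3) T}
    (hf : f ∈ weightedHomogeneousSubmodule T wt a) (N : Submodule T (MvPolynomial (Fin 3) T))
    (h : ∀ u, Finsupp.weight wt u = a → monomial u (1 : T) ∈ N) : f ∈ N := by
  rw [f.as_sum]
  refine Submodule.sum_mem _ fun u hu => ?_
  have : monomial u (coeff u f) = coeff u f • monomial u (1 : T) := by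
    rw [smul_monomial, smul_eq_mul, mul_one]
  rw [this]
  exact N.smul_mem _ (h u (hf (mem_support_iff.1 hu)))

theorem IsHilbertPoint.zero_deg (hI : IsHilbertPoint wt hf T I) (u : Fin 3 →₀ ℕ)
    (hu : ¬ HS (Finsupp.weight wt u)) : monomial u (1 : T) ∈ I := by
  have h := hI.2 (Finsupp.weight wt u)
  have h0 : hf (Finsupp.weight wt u) = 0 := if_neg hu
  rw [h0] at h
  have := h.eq_zero (Submodule.Quotient.mk
    ⟨monomial u 1, isWeightedHomogeneous_monomial _ _ _ rfl⟩)
  rw [Submodule.Quotient.mk_eq_zero] at this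
  exact this

theorem IsHilbertPoint.faith (hI : IsHilbertPoint wt hf T I) {a : ℤ} (ha : HS a) (c : T)
    (hc : ∀ u, Finsupp.weight wt u = a → monomial u c ∈ I) : c = 0 := by
  have h := hI.2 a
  have h1 : hf a = 1 := if_pos ha
  rw [h1] at h
  refine h.faithful c fun m => ?_
  obtain ⟨f, rfl⟩ := Submodule.Quotient.mk_surjective _ m
  rw [← Submodule.Quotient.mk_smul, Submodule.Quotient.mk_eq_zero]
  change c • f.1 ∈ I
  have := homog_as_sum f.2 ((I.restrictScalars T).comap (LinearMap.lsmul T _ c)) fun u hu => by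
    change c • monomial u (1 : T) ∈ I
    rw [smul_monomial, smul_eq_mul, mul_one]
    exact hc u hu
  exact this

theorem IsHilbertPoint.two (hI : IsHilbertPoint wt hf T I) {a : ℤ} (ha : HS a)
    (p q : Fin 3 →₀ ℕ) (hp : Finsupp.weight wt p = a) (hq : Finsupp.weight wt q = a)
    (hpq : ∀ u, Finsupp.weight wt u = a → u = p ∨ u = q) :
    ∃ e s t : T, monomial p e - monomial q s ∈ I ∧ monomial q (1 - e) - monomial p t ∈ I := by
  have h := hI.2 a
  have h1 : hf a = 1 := if_pos ha
  rw [h1] at h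
  let α : weightedHomogeneousSubmodule T wt a :=
    ⟨monomial p 1, isWeightedHomogeneous_monomial _ _ _ hp⟩
  let β : weightedHomogeneousSubmodule T wt a :=
    ⟨monomial q 1, isWeightedHomogeneous_monomial _ _ _ hq⟩
  obtain ⟨e, s, t, h1, h2⟩ := h.two_gen (Submodule.Quotient.mk α) (Submodule.Quotient.mk β) (by
    intro m
    obtain ⟨f, rfl⟩ := Submodule.Quotient.mk_surjective _ m
    have := homog_as_sum f.2 (Submodule.span T {monomial p 1, monomial q 1}) fun u hu => by
      rcases hpq u hu with rfl | rfl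
      · exact Submodule.subset_span (by simp)
      · exact Submodule.subset_span (by simp)
    obtain ⟨a', b', h⟩ := Submodule.mem_span_pair.1 this
    refine ⟨a', b', ?_⟩
    rw [← Submodule.Quotient.mk_smul, ← Submodule.Quotient.mk_smul, ← Submodule.Quotient.mk_add]
    congr 1
    exact Subtype.ext h.symm)
  refine ⟨e, s, t, ?_, ?_⟩
  · rw [← Submodule.Quotient.mk_smul, ← Submodule.Quotient.mk_smul, Submodule.Quotient.eq] at h1
    have h3 : e • monomial p (1 : T) - s • monomial q (1 : T) ∈ I := h1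
    simpa [smul_monomial] using h3
  · rw [← Submodule.Quotient.mk_smul, ← Submodule.Quotient.mk_smul, Submodule.Quotient.eq] at h2
    have h3 : (1 - e) • monomial q (1 : T) - t • monomial p (1 : T) ∈ I := h2
    simpa only [smul_monomial, smul_eq_mul, mul_one] using h3

/-- If `ε` kills the non-standard monomials modulo `I`, then `I` lies in `killIdeal`. -/
theorem IsHilbertPoint.le_kill (hI : IsHilbertPoint wt hf T I) {St : (Fin 3 →₀ ℕ) → Prop}
    (hS : Good St) {ε : T} (hε : ∀ v, ¬ St v → monomial v ε ∈ I) : I ≤ killIdeal St hS ε := by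
  classical
  intro f hf u hu
  refine hI.faith (hS.mem u hu) _ fun v hv => ?_
  by_cases hv' : St v
  · obtain rfl : v = u := hS.uniq v u hv' hu hv
    set g := weightedHomogeneousComponent wt (Finsupp.weight wt v) f with hg
    have hgI : g ∈ I := hI.1 f hf _
    have hgc : coeff v g = coeff v f := by
      rw [hg, coeff_weightedHomogeneousComponent, if_pos rfl]
    have hgh : IsWeightedHomogeneous wt g (Finsupp.weight wt v) :=
      weightedHomogeneousComponent_isWeightedHomogeneous _ _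
    have h1 : C ε * g - monomial v (ε * coeff v g) ∈ I := by
      have h2 : C ε * g - monomial v (ε * coeff v g) =
          ∑ x ∈ g.support.erase v, monomial x (ε * coeff x g) := by
        conv_lhs => rw [g.as_sum, Finset.mul_sum]
        simp only [C_mul_monomial]
        by_cases hvs : v ∈ g.support
        · rw [← Finset.add_sum_erase _ _ hvs, ← g.as_sum]
          ring
        · rw [Finset.erase_eq_of_notMem hvs, ← g.as_sum, notMem_support_iff.1 hvs]
          simp
      rw [h2]
      refine Ideal.sum_mem _ fun x hx => ?_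
      have hx1 := Finset.mem_erase.1 hx
      have hx2 : ¬ St x := fun h => hx1.1 (hS.uniq x v h hu (hgh (mem_support_iff.1 hx1.2)))
      have : monomial x (ε * coeff x g) = C (coeff x g) * monomial x ε := by
        rw [C_mul_monomial, mul_comm]
      rw [this]
      exact I.mul_mem_left _ (hε x hx2)
    have h3 := I.sub_mem (I.mul_mem_left (C ε) hgI) h1
    rw [sub_sub_cancel, hgc] at h3
    exact h3
  · have : monomial v (ε * coeff u f) = C (coeff u f) * monomial v ε := by
      rw [C_mul_monomial, mul_comm]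
    rw [this]
    exact I.mul_mem_left _ (hε v hv')

theorem IsHilbertPoint.classify (hI : IsHilbertPoint wt hf T I) :
    ∃ e : T, e * e = e ∧ I = Ie e := by
  classical
  let π := Ideal.Quotient.mk I
  set x := π (X 0) with hx
  set y := π (X 1) with hy
  set z := π (X 2) with hz
  let c : T →+* (MvPolynomial (Fin 3) T ⧸ I) := π.comp C
  have hmon : ∀ (u : Fin 3 →₀ ℕ) (t : T), π (monomial u t) = c t * (x ^ u 0 * y ^ u 1 * z ^ u 2) := by
    intro u t
    rw [monomial_eq3]
    simp [c, hx, hy, hz]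
  have hmem : ∀ f, f ∈ I ↔ π f = 0 := fun f => Ideal.Quotient.eq_zero_iff_mem.symm
  have Z : ∀ i j k : ℕ, ¬ HS (3 * (i : ℤ) + 4 * j + 5 * k) → x ^ i * y ^ j * z ^ k = 0 := by
    intro i j k h
    have := (hmem _).1 (hI.zero_deg (ex i j k) (by rw [weight_eq]; exact h))
    rw [hmon] at this
    simpa using this
  have hxy : x * y = 0 := by simpa using Z 1 1 0 (by decide)
  have hxxz : x ^ 2 * z = 0 := by simpa using Z 2 0 1 (by decide)
  have hyzz : y * z ^ 2 = 0 := by simpa using Z 0 1 2 (by decide)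
  have hyyyz : y ^ 3 * z = 0 := by simpa using Z 0 3 1 (by decide)
  have hy4 : y ^ 4 = 0 := by simpa using Z 0 4 0 (by decide)
  have hz3 : z ^ 3 = 0 := by simpa using Z 0 0 3 (by decide)
  have hx5 : x ^ 5 = 0 := by simpa using Z 5 0 0 (by decide)
  have F12 : ∀ t : T, c t * x ^ 4 = 0 → c t * y ^ 3 = 0 → t = 0 := by
    intro t h1 h2
    refine hI.faith (a := 12) (by decide) t fun u hu => ?_
    rw [hmem, hmon]
    rw [weight_eq] at hu
    have : (u 0 = 4 ∧ u 1 = 0 ∧ u 2 = 0) ∨ (u 0 = 1 ∧ u 1 = 1 ∧ u 2 = 1) ∨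
        (u 0 = 0 ∧ u 1 = 3 ∧ u 2 = 0) := by
      have h2 : u 2 ≤ 2 := by omega
      generalize u 0 = i at *
      generalize u 1 = j at *
      generalize u 2 = k at *
      interval_cases k <;> omega
    rcases this with ⟨a, b, d⟩ | ⟨a, b, d⟩ | ⟨a, b, d⟩ <;> rw [a, b, d]
    · linear_combination h1
    · linear_combination (c t * z) * hxy
    · linear_combination h2
  have F13 : ∀ t : T, c t * (x * z ^ 2) = 0 → c t * (y ^ 2 * z) = 0 → t = 0 := by
    intro t h1 h2
    refine hI.faith (a := 13) (by decide) t fun u hu => ?_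
    rw [hmem, hmon]
    rw [weight_eq] at hu
    have : (u 0 = 3 ∧ u 1 = 1 ∧ u 2 = 0) ∨ (u 0 = 1 ∧ u 1 = 0 ∧ u 2 = 2) ∨
        (u 0 = 0 ∧ u 1 = 2 ∧ u 2 = 1) := by
      have h2 : u 2 ≤ 2 := by omega
      generalize u 0 = i at *
      generalize u 1 = j at *
      generalize u 2 = k at *
      interval_cases k <;> omega
    rcases this with ⟨a, b, d⟩ | ⟨a, b, d⟩ | ⟨a, b, d⟩ <;> rw [a, b, d]
    · linear_combination (c t * x ^ 2) * hxy
    · linear_combination h1
    · linear_combination h2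
  obtain ⟨e, s, t, G1, G2⟩ := hI.two (a := 8) (by decide) (ex 1 0 1) (ex 0 2 0)
    (by simp [weight_eq]) (by simp [weight_eq]) (by
      intro u hu
      rw [weight_eq] at hu
      have : (u 0 = 1 ∧ u 1 = 0 ∧ u 2 = 1) ∨ (u 0 = 0 ∧ u 1 = 2 ∧ u 2 = 0) := by
        have h2 : u 2 ≤ 2 := by omega
        generalize u 0 = i at *
        generalize u 1 = j at *
        generalize u 2 = k at *
        interval_cases k <;> omega
      rcases this with ⟨a, b, d⟩ | ⟨a, b, d⟩
      · exact Or.inl (ext3 a b d)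
      · exact Or.inr (ext3 a b d))
  obtain ⟨f, s', t', G3, G4⟩ := hI.two (a := 9) (by decide) (ex 3 0 0) (ex 0 1 1)
    (by simp [weight_eq]) (by simp [weight_eq]) (by
      intro u hu
      rw [weight_eq] at hu
      have : (u 0 = 3 ∧ u 1 = 0 ∧ u 2 = 0) ∨ (u 0 = 0 ∧ u 1 = 1 ∧ u 2 = 1) := by omega
      rcases this with ⟨a, b, d⟩ | ⟨a, b, d⟩
      · exact Or.inl (ext3 a b d)
      · exact Or.inr (ext3 a b d))
  rw [hmem, map_sub, hmon, hmon] at G1 G2 G3 G4
  simp only [ex_zero, ex_one, ex_two, pow_zero, pow_one, mul_one, one_mul, map_sub, map_one]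
    at G1 G2 G3 G4
  -- basic consequences
  have A1 : (1 - c e) * y ^ 3 = 0 := by linear_combination y * G2 + (c t * z) * hxy
  have A2 : c f * x ^ 4 = 0 := by linear_combination x * G3 + (c s' * z) * hxy
  have A3 : (1 - c f) * (y ^ 2 * z) = 0 := by linear_combination y * G4 + (c t' * x ^ 2) * hxy
  have B1 : f * (1 - e) = 0 := by
    apply F12
    · simp only [map_mul, map_sub, map_one]
      linear_combination (1 - c e) * A2
    · simp only [map_mul, map_sub, map_one]
      linear_combination (c f) * A1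
  have B2 : e * (1 - f) = 0 := by
    apply F13
    · simp only [map_mul, map_sub, map_one]
      linear_combination ((1 - c f) * z) * G1 + (c s) * A3
    · simp only [map_mul, map_sub, map_one]
      linear_combination (c e) * A3
  obtain rfl : e = f := by linear_combination B2 - B1
  have he : e * e = e := by linear_combination -B1
  have hce : c e * c e = c e := by rw [← map_mul, he]
  have C1 : s * e = 0 := by
    apply F12
    · simp only [map_mul]
      linear_combination (c s) * A2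
    · simp only [map_mul]
      linear_combination (-(c e) * y) * G1 + (c e * c e * z) * hxy
  have D1 : c e * (x * z) = 0 := by
    have : c s * c e = 0 := by rw [← map_mul, C1, map_zero]
    linear_combination (c e) * G1 + y ^ 2 * this - (x * z) * hce
  have C2 : s' * e = 0 := by
    apply F13
    · simp only [map_mul]
      linear_combination (c s' * z) * D1
    · simp only [map_mul]
      linear_combination (-(c e) * y) * G3 + (c e * c e * x ^ 2) * hxy
  have D2 : c e * x ^ 3 = 0 := by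
    have : c s' * c e = 0 := by rw [← map_mul, C2, map_zero]
    linear_combination (c e) * G3 + (y * z) * this - (x ^ 3) * hce
  have C3 : t' * (1 - e) = 0 := by
    apply F12
    · simp only [map_mul, map_sub, map_one]
      linear_combination (-(1 - c e) * x) * G4 + ((1 - c e) * (1 - c e) * z) * hxy
    · simp only [map_mul, map_sub, map_one]
      linear_combination (c t') * A1
  have D3 : (1 - c e) * (y * z) = 0 := by
    have : c t' * (1 - c e) = 0 := by rw [← map_one c, ← map_sub, ← map_mul, C3, map_zero]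
    linear_combination (1 - c e) * G4 + (x ^ 3) * this - (y * z) * hce
  have C4 : t * (1 - e) = 0 := by
    apply F13
    · simp only [map_mul, map_sub, map_one]
      linear_combination (-(1 - c e) * z) * G2 + ((1 - c e) * y) * D3
    · simp only [map_mul, map_sub, map_one]
      linear_combination (c t * y) * D3
  have D4 : (1 - c e) * y ^ 2 = 0 := by
    have : c t * (1 - c e) = 0 := by rw [← map_one c, ← map_sub, ← map_mul, C4, map_zero]
    linear_combination (1 - c e) * G2 + (x * z) * this - (y ^ 2) * hce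
  have K1 : ∀ v, ¬ St1 v → monomial v e ∈ I := by
    intro v hv
    rw [hmem, hmon]
    simp only [St1] at hv
    generalize v 0 = i at *
    generalize v 1 = j at *
    generalize v 2 = k at *
    have : (1 ≤ i ∧ 1 ≤ j) ∨ (1 ≤ i ∧ 1 ≤ k) ∨ 3 ≤ i ∨ (1 ≤ j ∧ 2 ≤ k) ∨ (3 ≤ j ∧ 1 ≤ k) ∨ 4 ≤ j ∨
        3 ≤ k := by omega
    rcases this with ⟨h1, h2⟩ | ⟨h1, h2⟩ | h1 | ⟨h1, h2⟩ | ⟨h1, h2⟩ | h1 | h1
    · obtain ⟨i, rfl⟩ := Nat.exists_eq_add_of_le h1
      obtain ⟨j, rfl⟩ := Nat.exists_eq_add_of_le h2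
      linear_combination (c e * x ^ i * y ^ j * z ^ k) * hxy
    · obtain ⟨i, rfl⟩ := Nat.exists_eq_add_of_le h1
      obtain ⟨k, rfl⟩ := Nat.exists_eq_add_of_le h2
      linear_combination (x ^ i * y ^ j * z ^ k) * D1
    · obtain ⟨i, rfl⟩ := Nat.exists_eq_add_of_le h1
      linear_combination (x ^ i * y ^ j * z ^ k) * D2
    · obtain ⟨j, rfl⟩ := Nat.exists_eq_add_of_le h1
      obtain ⟨k, rfl⟩ := Nat.exists_eq_add_of_le h2
      linear_combination (c e * x ^ i * y ^ j * z ^ k) * hyzz
    · obtain ⟨j, rfl⟩ := Nat.exists_eq_add_of_le h1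
      obtain ⟨k, rfl⟩ := Nat.exists_eq_add_of_le h2
      linear_combination (c e * x ^ i * y ^ j * z ^ k) * hyyyz
    · obtain ⟨j, rfl⟩ := Nat.exists_eq_add_of_le h1
      linear_combination (c e * x ^ i * y ^ j * z ^ k) * hy4
    · obtain ⟨k, rfl⟩ := Nat.exists_eq_add_of_le h1
      linear_combination (c e * x ^ i * y ^ j * z ^ k) * hz3
  have K2 : ∀ v, ¬ St2 v → monomial v (1 - e) ∈ I := by
    intro v hv
    rw [hmem, hmon, map_sub, map_one]
    simp only [St2] at hv
    generalize v 0 = i at *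
    generalize v 1 = j at *
    generalize v 2 = k at *
    have : (1 ≤ i ∧ 1 ≤ j) ∨ 2 ≤ j ∨ (1 ≤ j ∧ 1 ≤ k) ∨ (2 ≤ i ∧ 1 ≤ k) ∨ 3 ≤ k ∨ 5 ≤ i := by omega
    rcases this with ⟨h1, h2⟩ | h1 | ⟨h1, h2⟩ | ⟨h1, h2⟩ | h1 | h1
    · obtain ⟨i, rfl⟩ := Nat.exists_eq_add_of_le h1
      obtain ⟨j, rfl⟩ := Nat.exists_eq_add_of_le h2
      linear_combination ((1 - c e) * x ^ i * y ^ j * z ^ k) * hxy
    · obtain ⟨j, rfl⟩ := Nat.exists_eq_add_of_le h1
      linear_combination (x ^ i * y ^ j * z ^ k) * D4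
    · obtain ⟨j, rfl⟩ := Nat.exists_eq_add_of_le h1
      obtain ⟨k, rfl⟩ := Nat.exists_eq_add_of_le h2
      linear_combination (x ^ i * y ^ j * z ^ k) * D3
    · obtain ⟨i, rfl⟩ := Nat.exists_eq_add_of_le h1
      obtain ⟨k, rfl⟩ := Nat.exists_eq_add_of_le h2
      linear_combination ((1 - c e) * x ^ i * y ^ j * z ^ k) * hxxz
    · obtain ⟨k, rfl⟩ := Nat.exists_eq_add_of_le h1
      linear_combination ((1 - c e) * x ^ i * y ^ j * z ^ k) * hz3
    · obtain ⟨i, rfl⟩ := Nat.exists_eq_add_of_le h1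
      linear_combination ((1 - c e) * x ^ i * y ^ j * z ^ k) * hx5
  refine ⟨e, he, le_antisymm (le_inf (hI.le_kill good1 K1) (hI.le_kill good2 K2)) ?_⟩
  intro g hg
  rw [mem_Ie] at hg
  rw [g.as_sum]
  refine Ideal.sum_mem _ fun u _ => ?_
  have h1 : monomial u (e * coeff u g) ∈ I := by
    by_cases h : St1 u
    · rw [hg.1 u h, map_zero]
      exact I.zero_mem
    · rw [mul_comm, ← C_mul_monomial]
      exact I.mul_mem_left _ (K1 u h)
  have h2 : monomial u ((1 - e) * coeff u g) ∈ I := by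
    by_cases h : St2 u
    · rw [hg.2 u h, map_zero]
      exact I.zero_mem
    · rw [mul_comm, ← C_mul_monomial]
      exact I.mul_mem_left _ (K2 u h)
  have h3 := I.add_mem h1 h2
  rw [← map_add] at h3
  convert h3 using 2
  ring

end Pool.Agent.MP_411355_ag

end

-- part MP_411355_ag.Schemes
section

open MvPolynomial AlgebraicGeometry CategoryTheory

universe u

namespace Pool.Agent.MP_411355_ag

variable (k : Type u) [Field k]

/-- the ring map `k × k → T` of an idempotent -/
def prodHom {T : Type u} [CommRing T] [Algebra k T] (e : T) (he : e * e = e) : k × k →+* T where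
  toFun p := algebraMap k T p.1 * e + algebraMap k T p.2 * (1 - e)
  map_one' := by simp
  map_mul' p q := by
    simp only [Prod.fst_mul, Prod.snd_mul, map_mul]
    linear_combination (-(algebraMap k T p.1 - algebraMap k T p.2) *
      (algebraMap k T q.1 - algebraMap k T q.2)) * he
  map_zero' := by simp
  map_add' p q := by
    simp only [Prod.fst_add, Prod.snd_add, map_add]
    ring

theorem exists_hilb : IsMultigradedHilbertScheme k wt hf (Spec (CommRingCat.of (k × k)))
    (Spec.map (CommRingCat.ofHom (algebraMap k (k × k)))) := by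
  have hid : ∀ {T : Type u} [CommRing T] (φ : k × k →+* T), φ (1, 0) * φ (1, 0) = φ (1, 0) := by
    intro T _ φ
    rw [← map_mul]
    simp
  let F : ∀ (T : Type u) [CommRing T] [Algebra k T],
      PointsOver k (Spec (CommRingCat.of (k × k)))
        (Spec.map (CommRingCat.ofHom (algebraMap k (k × k)))) T →
      {I : Ideal (MvPolynomial (Fin 3) T) // IsHilbertPoint wt hf T I} := fun T _ _ g =>
    ⟨Ie ((Spec.preimage g.1).hom (1, 0)), isHilbertPoint_Ie (hid _)⟩
  have hF : ∀ (T : Type u) [CommRing T] [Algebra k T], Function.Bijective (F T) := by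
    intro T _ _
    have hform : ∀ g : PointsOver k (Spec (CommRingCat.of (k × k)))
        (Spec.map (CommRingCat.ofHom (algebraMap k (k × k)))) T, ∀ p : k × k,
        (Spec.preimage g.1).hom p = algebraMap k T p.1 * (Spec.preimage g.1).hom (1, 0) +
          algebraMap k T p.2 * (1 - (Spec.preimage g.1).hom (1, 0)) := by
      intro g p
      have h1 : CommRingCat.ofHom (algebraMap k (k × k)) ≫ Spec.preimage g.1 =
          CommRingCat.ofHom (algebraMap k T) := by
        apply Spec.map_injective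
        rw [Spec.map_comp, Spec.map_preimage, g.2]
      have h2 : ∀ a : k, algebraMap k T a = (Spec.preimage g.1).hom (algebraMap k (k × k) a) := by
        intro a
        have := congrArg (fun ψ => ψ.hom a) h1
        simpa using this.symm
      rw [h2, h2, ← map_one (Spec.preimage g.1).hom, ← map_sub, ← map_mul, ← map_mul, ← map_add]
      congr 1
      ext <;> simp
    constructor
    · intro g g' h
      have h1 := Ie_injective (hid _) (hid _) (congrArg Subtype.val h)
      apply Subtype.ext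
      rw [← Spec.map_preimage g.1, ← Spec.map_preimage g'.1]
      congr 1
      ext p
      rw [hform g p, hform g' p, h1]
    · rintro ⟨I, hI⟩
      obtain ⟨e, he, rfl⟩ := hI.classify
      refine ⟨⟨Spec.map (CommRingCat.ofHom (prodHom k e he)), ?_⟩, ?_⟩
      · rw [← Spec.map_comp]
        congr 1
        ext a
        simp [prodHom]
        ring
      · apply Subtype.ext
        simp [F, prodHom]
  refine ⟨fun T _ _ => Equiv.ofBijective (F T) (hF T), ?_⟩
  intro T T' _ _ _ _ φ g g' h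
  have h1 : Spec.preimage g'.1 = Spec.preimage g.1 ≫ CommRingCat.ofHom φ.toRingHom := by
    apply Spec.map_injective
    rw [Spec.map_comp, Spec.map_preimage, Spec.map_preimage, h]
  simp only [Equiv.ofBijective_apply, F]
  rw [map_Ie _ (hid _), h1]
  rfl

theorem not_connected (H : Scheme.{u}) (π : H ⟶ Spec (CommRingCat.of k))
    (hH : IsMultigradedHilbertScheme k wt hf H π) : Nonempty H ∧ ¬ ConnectedSpace H := by
  obtain ⟨e, hnat⟩ := hH
  -- the idempotent of a morphism from an affine scheme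
  have hex : ∀ (T : CommRingCat.{u}) (g : Spec T ⟶ H), ∃ ε : T, ε * ε = ε ∧
      ∀ [Algebra k T] (hg : g ≫ π = Spec.map (CommRingCat.ofHom (algebraMap k T))),
        (e T ⟨g, hg⟩).1 = Ie ε := by
    intro T g
    let inst : Algebra k T := (Spec.preimage (g ≫ π)).hom.toAlgebra
    have hg0 : g ≫ π = Spec.map (CommRingCat.ofHom (algebraMap k T)) :=
      (Spec.map_preimage (g ≫ π)).symm
    obtain ⟨ε, h1, h2⟩ := (e T ⟨g, hg0⟩).2.classify
    refine ⟨ε, h1, fun {inst'} hg => ?_⟩
    obtain rfl : inst' = inst := by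
      apply Algebra.algebra_ext
      intro a
      have h3 := Spec.map_injective (hg.symm.trans hg0)
      exact congrArg (fun ψ => ψ.hom a) h3
    exact h2
  choose E hE1 hE2 using hex
  have hEnat : ∀ (T T' : CommRingCat.{u}) (φ : T ⟶ T') (g : Spec T ⟶ H),
      E T' (Spec.map φ ≫ g) = φ.hom (E T g) := by
    intro T T' φ g
    let _ : Algebra k T := (Spec.preimage (g ≫ π)).hom.toAlgebra
    let _ : Algebra k T' := (Spec.preimage (g ≫ π) ≫ φ).hom.toAlgebra
    have hg : g ≫ π = Spec.map (CommRingCat.ofHom (algebraMap k T)) :=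
      (Spec.map_preimage (g ≫ π)).symm
    have hg' : (Spec.map φ ≫ g) ≫ π = Spec.map (CommRingCat.ofHom (algebraMap k T')) := by
      rw [Category.assoc, hg, ← Spec.map_comp]
      rfl
    let φ' : T →ₐ[k] T' := { φ.hom with commutes' := fun a => rfl }
    have h1 := hnat T T' φ' ⟨g, hg⟩ ⟨Spec.map φ ≫ g, hg'⟩ rfl
    rw [hE2, hE2, map_Ie _ (hE1 _ _)] at h1
    refine Ie_injective (hE1 _ _) ?_ h1
    rw [← map_mul, hE1]
  have key : ∀ (T₁ T₂ : CommRingCat.{u}) (g₁ : Spec T₁ ⟶ H) (g₂ : Spec T₂ ⟶ H)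
      (p₁ : Spec T₁) (p₂ : Spec T₂), g₁ p₁ = g₂ p₂ →
      (E T₁ g₁ ∈ p₁.asIdeal ↔ E T₂ g₂ ∈ p₂.asIdeal) := by
    intro T₁ T₂ g₁ g₂ p₁ p₂ h
    obtain ⟨z, hz1, hz2⟩ := Scheme.Pullback.exists_preimage_pullback p₁ p₂ h
    obtain ⟨T₃, j, _, ⟨q, hq⟩, -⟩ :=
      Scheme.exists_affine_mem_range_and_range_subset (U := ⊤) (x := z) trivial
    let φ₁ := Spec.preimage (j ≫ Limits.pullback.fst g₁ g₂)
    let φ₂ := Spec.preimage (j ≫ Limits.pullback.snd g₁ g₂)
    have e1 : Spec.map φ₁ = j ≫ Limits.pullback.fst g₁ g₂ := Spec.map_preimage _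
    have e2 : Spec.map φ₂ = j ≫ Limits.pullback.snd g₁ g₂ := Spec.map_preimage _
    have e3 : φ₁.hom (E T₁ g₁) = φ₂.hom (E T₂ g₂) := by
      rw [← hEnat, ← hEnat, e1, e2, Category.assoc, Category.assoc, Limits.pullback.condition]
    have e4 : p₁ = Spec.map φ₁ q := by rw [e1, Scheme.Hom.comp_apply, hq, hz1]
    have e5 : p₂ = Spec.map φ₂ q := by rw [e2, Scheme.Hom.comp_apply, hq, hz2]
    rw [e4, e5]
    change φ₁.hom (E T₁ g₁) ∈ q.asIdeal ↔ φ₂.hom (E T₂ g₂) ∈ q.asIdeal
    rw [e3]
  let Z₁ : Set H := {x | ∃ (T : CommRingCat.{u}) (g : Spec T ⟶ H) (p : Spec T),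
    g p = x ∧ E T g ∉ p.asIdeal}
  let Z₀ : Set H := {x | ∃ (T : CommRingCat.{u}) (g : Spec T ⟶ H) (p : Spec T),
    g p = x ∧ E T g ∈ p.asIdeal}
  have hZ₁ : IsOpen Z₁ := by
    rw [isOpen_iff_forall_mem_open]
    rintro x ⟨T, g, p, rfl, hp⟩
    obtain ⟨T', j, _, ⟨q, hq⟩, -⟩ :=
      Scheme.exists_affine_mem_range_and_range_subset (U := ⊤) (x := g p) trivial
    refine ⟨j '' (PrimeSpectrum.basicOpen (E T' j) : Set (PrimeSpectrum T')), ?_, ?_, ?_⟩
    · rintro _ ⟨r, hr, rfl⟩
      exact ⟨T', j, r, rfl, hr⟩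
    · exact j.isOpenEmbedding.isOpenMap _ (PrimeSpectrum.basicOpen (E T' j)).2
    · exact ⟨q, fun h => hp ((key _ _ _ _ _ _ hq).1 h), hq⟩
  have hZ₀ : IsOpen Z₀ := by
    rw [isOpen_iff_forall_mem_open]
    rintro x ⟨T, g, p, rfl, hp⟩
    obtain ⟨T', j, _, ⟨q, hq⟩, -⟩ :=
      Scheme.exists_affine_mem_range_and_range_subset (U := ⊤) (x := g p) trivial
    refine ⟨j '' (PrimeSpectrum.basicOpen (1 - E T' j) : Set (PrimeSpectrum T')), ?_, ?_, ?_⟩
    · rintro _ ⟨r, hr, rfl⟩
      refine ⟨T', j, r, rfl, ?_⟩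
      have h0 : E T' j * (1 - E T' j) ∈ r.asIdeal := by
        rw [mul_sub, hE1, mul_one, sub_self]
        exact r.asIdeal.zero_mem
      exact (r.isPrime.mem_or_mem h0).resolve_right hr
    · exact j.isOpenEmbedding.isOpenMap _ (PrimeSpectrum.basicOpen (1 - E T' j)).2
    · refine ⟨q, fun h => ?_, hq⟩
      have h1 := q.asIdeal.add_mem h ((key _ _ _ _ _ _ hq).2 hp)
      rw [sub_add_cancel] at h1
      exact q.isPrime.ne_top ((Ideal.eq_top_iff_one _).2 h1)
  have hcov : ∀ x : H, x ∈ Z₁ ∨ x ∈ Z₀ := by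
    intro x
    obtain ⟨T', j, _, ⟨q, hq⟩, -⟩ :=
      Scheme.exists_affine_mem_range_and_range_subset (U := ⊤) (x := x) trivial
    by_cases h : E T' j ∈ q.asIdeal
    · exact Or.inr ⟨T', j, q, hq, h⟩
    · exact Or.inl ⟨T', j, q, hq, h⟩
  have hpt : ∀ ε : k, ε * ε = ε → ∃ g : Spec (CommRingCat.of k) ⟶ H, E _ g = ε := by
    intro ε hε
    let g := (e k).symm ⟨Ie ε, isHilbertPoint_Ie hε⟩
    refine ⟨g.1, Ie_injective (hE1 _ _) hε ?_⟩
    rw [← hE2 (CommRingCat.of k) g.1 g.2]
    exact congrArg Subtype.val ((e k).apply_symm_apply _)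
  let p₀ : Spec (CommRingCat.of k) := (⟨⊥, Ideal.isPrime_bot⟩ : PrimeSpectrum k)
  obtain ⟨g₁, hg₁⟩ := hpt 1 (by simp)
  obtain ⟨g₀, hg₀⟩ := hpt 0 (by simp)
  have n₁ : g₁ p₀ ∈ Z₁ := ⟨_, g₁, p₀, rfl, by
    rw [hg₁]
    exact (Ideal.ne_top_iff_one _).1 p₀.isPrime.ne_top⟩
  have n₀ : g₀ p₀ ∈ Z₀ := ⟨_, g₀, p₀, rfl, by
    rw [hg₀]
    exact p₀.asIdeal.zero_mem⟩
  refine ⟨⟨g₁ p₀⟩, fun hc => ?_⟩
  obtain ⟨x, -, ⟨T₁, a₁, p₁, rfl, h₁⟩, ⟨T₂, a₂, p₂, h, h₂⟩⟩ :=
    (isPreconnected_univ (α := H)) Z₁ Z₀ hZ₁ hZ₀ (fun x _ => hcov x) ⟨_, trivial, n₁⟩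
      ⟨_, trivial, n₀⟩
  exact h₁ ((key _ _ _ _ _ _ h).1 h₂)

end Pool.Agent.MP_411355_ag

end
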